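import Pool.Agent.H27.LocInt

set_option autoImplicit false

namespace Pool.Agent.Results.MP_2bd3fb_al.Counter

open Pool.Agent.H27.LocInt

universe u

/-- A locally finite, locally integrable group with no integral at all. -/
theorem result : ∃ (G : Type) (_ : Group G), LocallyFiniteGrp G ∧ LocallyIntegrable G ∧
    ∀ (H : Type u) [Group H], ¬ IsIntegral H G :=
  ⟨G, inferInstance, locFin, locInt, fun H _ => notInt H⟩

end Pool.Agent.Results.MP_2bd3fb_al.Counter
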